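import Pool.Agent.Lib.MP_e6fef2_lc.Bridge
import Pool.Agent.Lib.MP_e6fef2_lc.H30.Tw1
import Pool.Agent.Lib.MP_c5d73d_lc.F.H62.Roapi

/-!
Module BR1: typed properness implies that the two-step algebra is a proper extension.
-/

set_option autoImplicit false

universe u

open Cardinal Filter

namespace Pool.Agent.Lib.MP_e6fef2_lc.H53

open Pool.Agent.Lib.MP_100a6c_lc
open Pool.Agent.Lib.MP_c5d73d_lc.F (pr)
open Pool.Agent.Lib.MP_c5d73d_lc.F.H62 (pr_mono eq_iSup_pr)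
open Pool.Agent.Lib.MP_e6fef2_lc
open Pool.Agent.Lib.MP_e6fef2_lc.H30 (ro_le ro_iSup pr_le_twG exists_inf_ne_bot)

instance instNonemptyW : Nonempty W.{u} := by
  rw [← Cardinal.mk_ne_zero_iff, Cardinal.mk_ord_toType]
  exact (Cardinal.aleph_pos 1).ne'

section

variable {B : Type u} [CompleteBooleanAlgebra B]

/-- The part of `N` in `XX B`. -/
def trN (B : Type u) (N : Set El.{u}) : Set (XX B) := {x | In N x}

theorem trN_countable {N : Set El.{u}} (hN : N.Countable) : (trN B N).Countable := by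
  have hinj : Function.Injective (fun x : XX B => (⟨XX B, x⟩ : El.{u})) := by
    intro x y h
    simpa using h
  exact hN.preimage hinj

variable (Q : BPre B W.{u})

/-- The name of the dense subset of `Q` given by `D`. -/
noncomputable def nmD (D : Set (TwS Q)) (x : W.{u}) : B :=
  ⨆ p : {p : Tw Q // p.x = x ∧ ∃ d ∈ D, pr p ≤ d}, p.1.b

open Classical in
/-- The witnesses. -/
noncomputable def wtD (D : Set (TwS Q)) (x : W.{u}) (d : TwS Q) : B :=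
  if d ∈ D then ⨆ p : {p : Tw Q // p.x = x ∧ pr p ≤ d}, p.1.b else ⊥

theorem nmD_eq (D : Set (TwS Q)) (x : W.{u}) : nmD Q D x = ⨆ d, wtD Q D x d := by
  apply le_antisymm
  · refine iSup_le ?_
    rintro ⟨p, hp, d, hd, hpd⟩
    refine le_iSup_of_le d ?_
    unfold wtD
    rw [if_pos hd]
    exact le_iSup_of_le (⟨p, hp, hpd⟩ : {p : Tw Q // p.x = x ∧ pr p ≤ d}) le_rfl
  · refine iSup_le fun d => ?_
    unfold wtD
    split_ifs with hd
    · refine iSup_le ?_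
      rintro ⟨p, hp, hpd⟩
      exact le_iSup_of_le (⟨p, hp, d, hd, hpd⟩ :
        {p : Tw Q // p.x = x ∧ ∃ d ∈ D, pr p ≤ d}) le_rfl
    · exact bot_le

theorem nmD_dense {D : Set (TwS Q)} (hD : sSup D = ⊤) : tdense Q.le (nmD Q D) = ⊤ := by
  unfold tdense
  rw [iInf_eq_top]
  intro x
  by_contra hne
  have hb : (⨆ q, nmD Q D q ⊓ Q.le q x)ᶜ ≠ ⊥ := by
    intro h
    exact hne (compl_eq_bot.1 h)
  let p : Tw Q := ⟨(⨆ q, nmD Q D q ⊓ Q.le q x)ᶜ, x, hb⟩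
  have h1 : (pr p : TwS Q) ≤ ⨆ d : D, (d : TwS Q) := by
    rw [← sSup_eq_iSup', hD]
    exact le_top
  rw [ro_iSup] at h1
  obtain ⟨r, hr, ⟨d, hd⟩, hrd⟩ := h1 p le_rfl
  have h2 : r.b ≤ nmD Q D r.x :=
    le_iSup_of_le (⟨r, rfl, d, hd, hrd⟩ : {p : Tw Q // p.x = r.x ∧ ∃ d ∈ D, pr p ≤ d}) le_rfl
  have h3 : r.b ≤ ⨆ q, nmD Q D q ⊓ Q.le q x := le_iSup_of_le r.x (le_inf h2 hr.2)
  exact r.ne (le_bot_iff.1 ((le_inf h3 hr.1).trans (inf_compl_self _).le))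

/-- What is needed of `N`. -/
structure GoodN (N : Set El.{u}) : Prop where
  /-- for names in `XX B → B` -/
  inr : ∀ s : W.{u}, In N s → In N (Sum.inr s : XX B)
  inr' : ∀ s : W.{u}, In N (Sum.inr s : XX B) → In N s
  genW : ∀ φ : W.{u} → B, In N φ → gen B N ⊓ ⨆ t, φ t ≤ ⨆ (t : W.{u}) (_ : In N t), φ t
  genC : ∀ φ : TwS Q → B, In N φ → gen B N ⊓ ⨆ t, φ t ≤ ⨆ (t : TwS Q) (_ : In N t), φ t
  nmD : ∀ D : Set (TwS Q), In N D → In N (Sum.inl (nmD Q D) : XX B)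
  wtD : ∀ D : Set (TwS Q), In N D → ∀ x : W.{u}, In N x → In N (wtD Q D x)
  nmc : ∀ c : TwS Q, In N c → In N (fun x : W.{u} => ⨆ p : {p : Tw Q // p.x = x ∧ pr p ≤ c}, p.1.b)
  tp : ∀ p : W.{u}, In N p → gen B N ≤ ⨆ q, Q.le q p ⊓ tgen Q.le (trN B N) q

theorem gen_le {N : Set El.{u}} (hN : GoodN Q N) (htw : Tw1Statement.{u}) (q : W.{u}) :
    twE Q (gen B N) ⊓ twE Q (tgen Q.le (trN B N) q) ⊓ twG Q q ≤ gen (TwS Q) N := by
  obtain ⟨hce, hE, hpr, hprj, hprjG, hG⟩ := htw B W.{u} Q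
  conv_rhs => unfold gen
  refine le_iInf fun D => le_iInf fun hDN => le_iInf fun hD => ?_
  rw [ro_le]
  intro p hp
  have hp1 : p.b ≤ gen B N := (hE _ _).1 (hp.trans (inf_le_left.trans inf_le_left))
  have hp2 : p.b ≤ tgen Q.le (trN B N) q := (hE _ _).1 (hp.trans (inf_le_left.trans inf_le_right))
  have hp3 := (pr_le_twG Q _ _).1 (hp.trans inf_le_right)
  rw [ro_iSup]
  intro p' hp'
  obtain ⟨r, hr, hrq⟩ := hp3 p' hp'
  have hrp : r.b ≤ p.b := hr.1.trans hp'.1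
  -- `r.b` forces an element of `nmD` in `N`, compatible with `r.x`
  have h1 : r.b ≤ tdense Q.le (nmD Q D) ⇨ ⨅ t, Q.le t q ⇨ ⨆ s, ⨆ _ : Sum.inr s ∈ trN B N,
      nmD Q D s ⊓ tcomp Q.le s t :=
    (hrp.trans hp2).trans (iInf₂_le (nmD Q D) (hN.nmD D hDN))
  rw [nmD_dense Q hD, top_himp] at h1
  have h2 : r.b ≤ ⨆ s, ⨆ _ : Sum.inr s ∈ trN B N, nmD Q D s ⊓ tcomp Q.le s r.x := by
    have h3 := h1.trans (iInf_le _ r.x)
    rw [le_himp_iff] at h3
    exact (le_inf le_rfl hrq).trans h3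
  obtain ⟨s, hs⟩ := exists_inf_ne_bot r.ne h2
  obtain ⟨hsN, hs⟩ := exists_inf_ne_bot hs (inf_le_right : _ ≤ ⨆ _ : Sum.inr s ∈ trN B N, _)
  have hsN' : In N s := hN.inr' s hsN
  have h4 : gen B N ⊓ nmD Q D s ≤ ⨆ (d : TwS Q) (_ : In N d), wtD Q D s d := by
    rw [nmD_eq]
    exact hN.genC _ (hN.wtD D hDN s hsN')
  let e : B := r.b ⊓ (nmD Q D s ⊓ tcomp Q.le s r.x)
  have he : e ≠ ⊥ := by
    intro h
    apply hs
    rw [← le_bot_iff, ← h]
    exact le_inf (inf_le_left.trans inf_le_left) inf_le_right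
  have h5 : e ≤ ⨆ (d : TwS Q) (_ : In N d), wtD Q D s d :=
    (le_inf (inf_le_left.trans (hrp.trans hp1)) (inf_le_right.trans inf_le_left)).trans h4
  obtain ⟨d, hd⟩ := exists_inf_ne_bot he h5
  obtain ⟨hdN, hd⟩ := exists_inf_ne_bot hd (inf_le_right : _ ≤ ⨆ _ : In N d, _)
  have hdD : d ∈ D := by
    by_contra h
    apply hd
    unfold wtD
    rw [if_neg h, inf_bot_eq]
  have hd2 : e ⊓ wtD Q D s d ≠ ⊥ := by
    intro h
    apply hd
    rw [← le_bot_iff, ← h]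
    exact le_inf (inf_le_left.trans inf_le_left) inf_le_right
  have h6 : e ⊓ wtD Q D s d ≤ ⨆ p : {p : Tw Q // p.x = s ∧ pr p ≤ d}, p.1.b := by
    refine inf_le_right.trans ?_
    unfold wtD
    rw [if_pos hdD]
  obtain ⟨⟨p₀, hp₀, hp₀d⟩, h7⟩ := exists_inf_ne_bot hd2 h6
  have h8 : e ⊓ wtD Q D s d ⊓ p₀.b ≤ ⨆ z, Q.le z s ⊓ Q.le z r.x :=
    inf_le_left.trans (inf_le_left.trans (inf_le_right.trans inf_le_right))
  obtain ⟨z, hz⟩ := exists_inf_ne_bot h7 h8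
  refine ⟨⟨_, z, hz⟩, ?_, d, ?_⟩
  · refine le_trans ?_ hr
    exact ⟨inf_le_left.trans (inf_le_left.trans (inf_le_left.trans inf_le_left)),
      inf_le_right.trans inf_le_right⟩
  · refine le_iSup₂_of_le hdD hdN ?_
    refine le_trans (pr_mono ?_) hp₀d
    refine ⟨inf_le_left.trans inf_le_right, ?_⟩
    have h9 : Q.le z s = Q.le z p₀.x := congrArg (Q.le z) hp₀.symm
    exact (inf_le_right.trans inf_le_left).trans h9.le

theorem pe_le {N : Set El.{u}} (hN : GoodN Q N) (halg : AlgStatement.{u})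
    (htw : Tw1Statement.{u}) (c : TwS Q) (hc : In N c) :
    gen B N ⊓ prj (twE Q) c ≤ prj (twE Q) (gen (TwS Q) N ⊓ c) := by
  have hgen := gen_le Q hN htw
  obtain ⟨hce, hE, hpr, hprj, hprjG, hG⟩ := htw B W.{u} Q
  obtain ⟨-, -, hinf, -, hle, -, -, -, -, -, -, -, hmono, hsup, -, -, hfr, -, -⟩ :=
    halg B (TwS Q) (twE Q) hce
  have h1 : prj (twE Q) c ≤ ⨆ x : W.{u}, ⨆ p : {p : Tw Q // p.x = x ∧ pr p ≤ c}, p.1.b := by
    conv_lhs => rw [eq_iSup_pr c, hsup]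
    refine iSup_le ?_
    rintro ⟨p, hp⟩
    rw [hprj]
    exact le_iSup_of_le p.x (le_iSup_of_le (⟨p, rfl, hp⟩ : {q : Tw Q // q.x = p.x ∧ pr q ≤ c})
      le_rfl)
  have h2 := (inf_le_inf_left (gen B N) h1).trans (le_inf inf_le_left (hN.genW _ (hN.nmc c hc)))
  refine h2.trans ?_
  rw [inf_iSup_eq]
  refine iSup_le fun x => ?_
  rw [inf_iSup_eq]
  refine iSup_le fun hx => ?_
  rw [inf_iSup_eq]
  refine iSup_le ?_
  rintro ⟨p, hpx, hpc⟩
  have h3 : gen B N ⊓ p.b ≤ ⨆ q, gen B N ⊓ p.b ⊓ (Q.le q x ⊓ tgen Q.le (trN B N) q) := by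
    rw [← inf_iSup_eq]
    exact le_inf le_rfl (inf_le_left.trans (hN.tp x hx))
  refine h3.trans (iSup_le fun q => ?_)
  have h4 : gen B N ⊓ p.b ⊓ (Q.le q x ⊓ tgen Q.le (trN B N) q) =
      prj (twE Q) (twG Q q ⊓ twE Q (gen B N ⊓ p.b ⊓ (Q.le q x ⊓ tgen Q.le (trN B N) q))) := by
    refine Eq.symm ((hfr _ _).trans ?_)
    rw [hprjG, top_inf_eq]
  rw [h4]
  apply hmono
  have m1 : twE Q (gen B N ⊓ p.b ⊓ (Q.le q x ⊓ tgen Q.le (trN B N) q)) ≤ twE Q (gen B N) :=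
    (hle _ _).2 (inf_le_left.trans inf_le_left)
  have m2 : twE Q (gen B N ⊓ p.b ⊓ (Q.le q x ⊓ tgen Q.le (trN B N) q)) ≤ twE Q p.b :=
    (hle _ _).2 (inf_le_left.trans inf_le_right)
  have m3 : twE Q (gen B N ⊓ p.b ⊓ (Q.le q x ⊓ tgen Q.le (trN B N) q)) ≤ twE Q (Q.le q x) :=
    (hle _ _).2 (inf_le_right.trans inf_le_left)
  have m4 : twE Q (gen B N ⊓ p.b ⊓ (Q.le q x ⊓ tgen Q.le (trN B N) q)) ≤
      twE Q (tgen Q.le (trN B N) q) :=
    (hle _ _).2 (inf_le_right.trans inf_le_right)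
  refine le_inf ?_ ?_
  · exact (le_inf (le_inf (inf_le_right.trans m1) (inf_le_right.trans m4)) inf_le_left).trans
      (hgen q)
  · refine le_trans ?_ hpc
    rw [hpr p, hpx]
    exact le_inf (inf_le_right.trans m2)
      ((le_inf (inf_le_right.trans m3) inf_le_left).trans (hG.up q x))

end

theorem br1 (hclub : ClubStatement.{u}) (halg : AlgStatement.{u}) (hgen : GenStatement.{u})
    (htw : Tw1Statement.{u}) : Br1Statement.{u} := by
  intro B _ Q hT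
  obtain ⟨φ, hφ, hT⟩ := hT
  obtain ⟨-, hcnt, hctb, hconst, -, hfun, hfun2, -, hlist, -, -⟩ := hclub
  have e1 : ∀ᶠ N in club.{u}, ∀ k : ℕ, ∀ s : List (XX B), In N s → In N (φ s k) :=
    hctb _ fun k => hfun (List (XX B)) (XX B → B) fun s => φ s k
  have e2 := hlist (XX B)
  have e3 := (hgen B).1 (XX B)
  have e4 := hfun W.{u} (XX B) Sum.inr
  obtain ⟨w₀⟩ := instNonemptyW.{u}
  have e5 := hfun (XX B) W.{u} (Sum.elim (fun _ => w₀) id)
  have e6 := (hgen B).1 W.{u}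
  have e7 := (hgen B).1 (TwS Q)
  have e8 := hfun (Set (TwS Q)) (XX B) (fun D => Sum.inl (nmD Q D))
  have e9 := hfun2 (Set (TwS Q)) W.{u} (TwS Q → B) (fun D x => wtD Q D x)
  have e10 := hfun (TwS Q) (W.{u} → B)
    (fun c x => ⨆ p : {p : Tw Q // p.x = x ∧ pr p ≤ c}, p.1.b)
  filter_upwards [hcnt, e1, e2, e3, e4, e5, e6, e7, e8, e9, e10] with
    N hcnt e1 e2 e3 e4 e5 e6 e7 e8 e9 e10
  have hN : GoodN Q N :=
    { inr := e4
      inr' := fun s hs => e5 _ hs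
      genW := e6
      genC := e7
      nmD := e8
      wtD := fun D hD x hx => e9 D x hD hx
      nmc := e10
      tp := by
        intro p hp
        refine hT (trN B N) (trN_countable hcnt) (gen B N) ?_ p (e4 p hp)
        intro s hs k
        have h1 : In N s := (e2 s).2 hs
        have h2 := e3 (φ s k) (e1 k s h1)
        rw [hφ, inf_top_eq] at h2
        exact h2 }
  exact pe_le Q hN halg htw

end Pool.Agent.Lib.MP_e6fef2_lc.H53
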