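import Pool.Agent.Lib.MP_e6fef2_lc.Chain
import Pool.Agent.Lib.MP_e6fef2_lc.TreeDefs

/-!
Module KCTC: the chain condition of the forcing of the generic Kurepa tree.
-/

set_option autoImplicit false

universe u

open Cardinal Filter

namespace Pool.Agent.Lib.MP_e6fef2_lc.H53

open Pool.Agent.Lib.MP_e6fef2_lc

section

variable {I : Type u}

open Classical in
/-- The union of two conditions with the same tree. -/
noncomputable def glue (s s' : TC I) (hht : s'.ht = s.ht) (hT : s'.T = s.T) : TC I where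
  ht := s.ht
  T := s.T
  a := s.a ∪ s'.a
  f := fun x => if x ∈ s.a then s.f x else s'.f x
  low := s.low
  ctbl := s.ctbl
  res := s.res
  extn := s.extn
  suc := s.suc
  ne := s.ne
  out := s.out
  a_ctbl := s.a_ctbl.union s'.a_ctbl
  f_mem := by
    intro x hx
    by_cases h : x ∈ s.a
    · simp only [h, if_true]
      exact s.f_mem x h
    · simp only [h, if_false]
      have h1 : x ∈ s'.a := hx.resolve_left h
      have h2 := s'.f_mem x h1
      rwa [hht, hT] at h2
  f_out := by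
    intro x hx
    have h : x ∉ s.a := fun h => hx (Or.inl h)
    have h' : x ∉ s'.a := fun h => hx (Or.inr h)
    simp only [h, if_false]
    exact s'.f_out x h'

theorem glue_le_left (s s' : TC I) (hht : s'.ht = s.ht) (hT : s'.T = s.T) :
    glue s s' hht hT ≤ s where
  ht := le_rfl
  T _ _ := rfl
  a _ hx := Or.inl hx.1
  f := by
    intro x hx m _
    simp only [glue, hx.1, if_true]

theorem glue_le_right (s s' : TC I) (hht : s'.ht = s.ht) (hT : s'.T = s.T)
    (hf : ∀ x ∈ s.a, x ∈ s'.a → s.f x = s'.f x) : glue s s' hht hT ≤ s' where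
  ht := hht.le
  T e _ := by
    show s.T e = s'.T e
    rw [hT]
  a _ hx := Or.inr hx.1
  f := by
    intro x hx m _
    by_cases h : x ∈ s.a
    · simp only [glue, h, if_true]
      rw [hf x h hx.1]
    · simp only [glue, h, if_false]

variable [LinearOrder I]

/-- The type of the key of a condition. -/
abbrev Ky (k : I) : Type u :=
  W.{u} × (W.{u} → Set (W.{u} → Bool)) × (Set.Iio k → Option (W.{u} → Bool))

open Classical in
/-- The key of a condition. -/
noncomputable def ky (k : I) (s : TC I) : Ky k :=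
  (s.ht, s.T, fun x => if x.1 ∈ s.a then some (s.f x.1) else none)

theorem pow_lt {κ : Cardinal.{u}} (h0 : ℵ₀ ≤ κ) (hlim : ∀ c < κ, 2 ^ c < κ) {c d : Cardinal.{u}}
    (hc : c < κ) (hd : d < κ) : c ^ d < κ := by
  have h1 : c ^ d ≤ (2 ^ c) ^ d := Cardinal.power_le_power_right (Cardinal.cantor c).le
  rw [← Cardinal.power_mul] at h1
  exact h1.trans_lt (hlim _ (Cardinal.mul_lt_of_lt h0 hc hd))

theorem mk_Ky_lt {κ : Cardinal.{u}} (hI : Idx κ I) (hW : #W.{u} < κ) (k : I) : #(Ky k) < κ := by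
  have h0 : ℵ₀ ≤ κ := hI.unc.le
  have h2 : (2 : Cardinal.{u}) < κ := (Cardinal.natCast_lt_aleph0 (n := 2)).trans hI.unc
  have hWB : #(W.{u} → Bool) < κ := by
    rw [← Cardinal.mk_congr (Equiv.arrowCongr (Equiv.refl W.{u}) Equiv.ulift.{u, 0}),
      ← Cardinal.power_def]
    refine pow_lt h0 hI.lim ?_ hW
    simpa using h2
  have hS : #(Set (W.{u} → Bool)) < κ := by
    rw [Cardinal.mk_set]
    exact hI.lim _ hWB
  have hWS : #(W.{u} → Set (W.{u} → Bool)) < κ := by
    rw [← Cardinal.power_def]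
    exact pow_lt h0 hI.lim hS hW
  have hO : #(Option (W.{u} → Bool)) < κ := by
    rw [Cardinal.mk_option]
    exact Cardinal.add_lt_of_lt h0 hWB (Cardinal.one_lt_aleph0.trans hI.unc)
  have hIO : #(Set.Iio k → Option (W.{u} → Bool)) < κ := by
    rw [← Cardinal.power_def]
    exact pow_lt h0 hI.lim hO (hI.seg k)
  rw [Cardinal.mk_prod, Cardinal.mk_prod, Cardinal.lift_id, Cardinal.lift_id, Cardinal.lift_id,
    Cardinal.lift_id]
  exact Cardinal.mul_lt_of_lt h0 hW (Cardinal.mul_lt_of_lt h0 hWS hIO)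

end

theorem kctc (hidx : IdxStatement.{u}) (hclo : CloStatement.{u}) (κ : Cardinal.{u}) (I : Type u)
    [LinearOrder I] [WellFoundedLT I] (hI : Idx κ I) : KC I (TC I) := by
  classical
  intro s
  obtain ⟨hbd, -, -, hW, -⟩ := hidx.2.1 κ I hI
  have h0 : ℵ₀ ≤ κ := hI.unc.le
  -- the bounds
  let Y : (k : I) → Ky k → Set I := fun k τ =>
    if h : ∃ i, ky k (s i) = τ then insert h.choose (s h.choose).a else ∅
  have hY : ∀ k τ, #(Y k τ) ≤ ℵ₀ := by
    intro k τ
    rw [Cardinal.le_aleph0_iff_set_countable]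
    by_cases h : ∃ i, ky k (s i) = τ
    · simp only [Y, dif_pos h]
      exact (s h.choose).a_ctbl.insert _
    · simp only [Y, dif_neg h]
      exact Set.countable_empty
  have hZ : ∀ k, #(⋃ τ, Y k τ : Set I) < κ := by
    intro k
    refine (Cardinal.mk_iUnion_le_sum_mk (f := Y k)).trans_lt ?_
    refine (Cardinal.sum_le_sum _ (fun _ => ℵ₀) (hY k)).trans_lt ?_
    rw [Cardinal.sum_const, Cardinal.lift_id, Cardinal.lift_id]
    exact Cardinal.mul_lt_of_lt h0 (mk_Ky_lt hI hW k) hI.unc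
  choose g hg using fun k => hbd _ (hZ k)
  -- a closure point
  have hne : Nonempty I := by
    rw [← Cardinal.mk_ne_zero_iff, hI.card]
    exact (Cardinal.aleph0_pos.trans_le h0).ne'
  obtain ⟨i₀⟩ := hne
  obtain ⟨δ, -, hδ, hcl⟩ := hclo κ I hI g i₀
  obtain ⟨k, hk, hak⟩ := hδ ((s δ).a ∩ Set.Iio δ) ((s δ).a_ctbl.mono Set.inter_subset_left)
    (fun j hj => hj.2)
  have hex : ∃ i, ky k (s i) = ky k (s δ) := ⟨δ, rfl⟩
  have hmem : ∀ z ∈ (insert hex.choose (s hex.choose).a : Set I), z < δ := by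
    intro z hz
    refine (hg k z (Set.mem_iUnion.2 ⟨ky k (s δ), ?_⟩)).trans (hcl k hk)
    simp only [Y, dif_pos hex]
    exact hz
  have hkey := hex.choose_spec
  set i := hex.choose with hi
  have h1 : (s i).ht = (s δ).ht := congrArg Prod.fst hkey
  have h2 : (s i).T = (s δ).T := congrArg (fun x : Ky k => x.2.1) hkey
  have h3 : ∀ x ∈ (s δ).a, x ∈ (s i).a → (s δ).f x = (s i).f x := by
    intro x hx hx'
    have hxδ : x < δ := hmem x (Set.mem_insert_of_mem _ hx')
    have hxk : x < k := hak x ⟨hx, hxδ⟩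
    have h4 := congrFun (congrArg (fun x : Ky k => x.2.2) hkey) ⟨x, hxk⟩
    simp only [ky, hx, hx', if_true, Option.some.injEq] at h4
    exact h4.symm
  exact ⟨δ, i, (hmem i (Set.mem_insert _ _)).ne', glue (s δ) (s i) h1 h2,
    glue_le_left _ _ h1 h2, glue_le_right _ _ h1 h2 h3⟩

end Pool.Agent.Lib.MP_e6fef2_lc.H53
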